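import Mathlib
import Pool.Agent.H55.FV.Stm
import Pool.Agent.H1.FU.NumB

/-!
# The numerical part of Theorem B' (module `S_numBv`)

As `Pool/Agent/H1/FU/NumB.lean`, with `L = 3 m - 3` and all degrees `d ≥ 4 m - 3`, `m ≥ 2`.
-/

set_option autoImplicit false

namespace Pool.Agent.H1.FV

open Pool.Agent.W608.PR Pool.Agent.H55.FU Pool.Agent.H1.FU Pool.Agent.H55.FV

/-- The general form of the inequality `Rm`. -/
lemma room {b e E W : ℕ} (hb : 1 ≤ b) (he : 2 * b ≤ e + 3) (s1 : 2 * b * W ≤ Nn E e) :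
    (b - 1) * Nn E (e + 1) + (b + E) * W ≤ (b + E) * Nn E e := by
  have r2 := Nn_ratio E e
  have s5 : 2 * (e + 1) * ((b - 1) * Nn E (e + 1) + (b + E) * W) ≤
      2 * (e + 1) * ((b + E) * Nn E e) := by
    obtain ⟨k, hk⟩ : ∃ k, b = k + 1 := ⟨b - 1, by omega⟩
    obtain ⟨f, hf⟩ : ∃ f, e + 1 = k + f ∧ k ≤ f := ⟨e + 1 - k, by omega, by omega⟩
    obtain ⟨hf1, hf2⟩ := hf
    have hmk : b - 1 = k := by omega
    have s6 : (b + E) * (2 * W) ≤ (E + 1) * Nn E e := by
      calc (b + E) * (2 * W) ≤ (b * (E + 1)) * (2 * W) := by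
            refine Nat.mul_le_mul_right _ ?_
            rw [hk]; nlinarith [Nat.zero_le (k * E)]
        _ = (E + 1) * (2 * b * W) := by ring
        _ ≤ (E + 1) * Nn E e := Nat.mul_le_mul_left _ s1
    have s7 : (e + 1) * ((E + 1) * Nn E e) ≤ 2 * f * ((E + 1) * Nn E e) :=
      Nat.mul_le_mul_right _ (by omega)
    calc 2 * (e + 1) * ((b - 1) * Nn E (e + 1) + (b + E) * W)
        = 2 * k * (Nn E (e + 1) * (e + 1)) + (e + 1) * ((b + E) * (2 * W)) := by
          rw [hmk]; ring
      _ ≤ 2 * k * (Nn E e * (e + E + 2)) + 2 * f * ((E + 1) * Nn E e) := by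
          rw [r2]
          exact Nat.add_le_add_left ((Nat.mul_le_mul_left _ s6).trans s7) _
      _ = 2 * (e + 1) * ((b + E) * Nn E e) := by
          rw [show e + E + 2 = (e + 1) + (E + 1) by ring, hf1, hk]
          ring
  exact le_of_mul_le_mul_left s5 (by positivity)

lemma kA_mono {E a m : ℕ} (h : a ≤ m) : kA E a ≤ kA E m := by
  unfold kA Pool.Agent.H55.FU.aa Pool.Agent.W608.PR.sz
  refine Nat.add_le_add_right (Nat.mul_le_mul ?_ ?_) 1
  · exact Nat.choose_le_choose _ (by omega)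
  · exact Nat.choose_le_choose _ (by omega)

theorem numBv : S_numBv := by
  intro m hm
  have hm1 : 1 ≤ m := by omega
  have hsz := bd_sz hm1
  have haa := bd_aa hm1
  have haa' := bd_aa' hm1
  have hSz := bd_Sz hm1
  -- the constants
  have hk : Bd (fun E => kA E m) (2 * m - 2) := by
    unfold kA
    exact (haa.mul hsz le_rfl).add (Bd.const 1 0) (by omega) (by omega)
  have hc : Bd (fun E => cA E m) (2 * m - 2) := by
    unfold cA
    exact haa.mul hsz (by omega)
  have hc' : Bd (fun E => cB E m) (2 * m - 2) := by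
    unfold cB
    exact haa'.mul hSz (by omega)
  have hR : Bd (fun E => Rg E m (kA E m)) (2 * m - 2) := by
    unfold Rg
    exact hk.add hsz le_rfl (by omega)
  have hY : Bd (fun E => Yg E m (cA E m)) (2 * m - 2) := by
    unfold Yg
    exact hc.add hsz le_rfl (by omega)
  have hRs : Bd (fun E => Rg E m (kA E m) * sz E m) (3 * m - 3) := hR.mul hsz (by omega)
  -- the part `X` without the term linear in the degree
  have hX : Bd (fun E => m * (Nn E (3 * m - 3) + Yg E m (cA E m)) + cB E m + Yg E m (cA E m))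
      (3 * m - 3) := by
    refine Bd.add (Bd.add ((Bd.const m 0).mul ((bd_Nn (3 * m - 3)).add hY le_rfl (by omega))
      (by omega : 0 + (3 * m - 3) ≤ 3 * m - 3)) hc' le_rfl (by omega)) hY le_rfl (by omega)
  obtain ⟨E1, h1⟩ := (Bd.mul (Bd.const (2 * m) 0) hk le_rfl).small (x := 2 * m - 1) (by omega)
  obtain ⟨E2, h2⟩ := (Bd.mul (Bd.const ((3 * m - 1) * (2 * m)) 0) ((hRs.add hk (l := 3 * m - 3)
    (by omega) (by omega)).add hX le_rfl le_rfl) le_rfl).small (x := 3 * m - 2) (by omega)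
  obtain ⟨E3, h3⟩ := (Bd.mul (Bd.lin (m + 1)) hRs (l := 3 * m - 2) (by omega)).small
    (x := 3 * m - 1) (by omega)
  obtain ⟨E4, h4⟩ := (Bd.mul (Bd.const ((4 * m - 2) * m) 0) (hSz.mul ((bd_dm (3 * m - 3)).add hR
    le_rfl (by omega)) (l := 4 * m - 4) (by omega)) le_rfl).small' (x := 4 * m - 3) (by omega)
  obtain ⟨E5, h5⟩ := (Bd.mul (Bd.const (4 * m - 2) 0) (((((bd_dm (3 * m - 3)).add hR
    le_rfl (by omega)).mul hsz (l := 4 * m - 4) (by omega)).add hk le_rfl (by omega)).add hX
    le_rfl (by omega)) le_rfl).small (x := 4 * m - 3) (by omega)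
  refine ⟨E1 + E2 + E3 + E4 + E5 + 1, by omega, fun E hE => ?_⟩
  have g1 := h1 E (by omega)
  have g2 := h2 E (by omega)
  have g3 := h3 E (by omega)
  have g4 := h4 E (by omega)
  have g5 := h5 E (by omega)
  clear h1 h2 h3 h4 h5
  refine ⟨⟨fun a f ha1 ham hf => ?_, fun f hf => ?_, by omega⟩, fun d hd =>
    ⟨by omega, fun e he hde => ⟨?_, ?_, by omega⟩, ?_, ?_⟩⟩
  · -- traces of multiplicity `a < m`
    unfold Rm
    refine room (by omega) (by omega) ?_
    have r1 : Nn E (2 * m - 1) ≤ Nn E f := Nn_mono (by omega)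
    refine le_trans ?_ (g1.le.trans r1)
    exact Nat.mul_le_mul (Nat.mul_le_mul_left _ (by omega)) (kA_mono (by omega))
  · unfold Rm
    refine room (by omega) (by omega) ?_
    have r1 : Nn E (2 * m - 1) ≤ Nn E f := Nn_mono (by omega)
    exact g1.le.trans r1
  · -- the first part of `Cndg`
    have hem : 3 * m - 2 ≤ e := by omega
    have r1 := ratio E (3 * m - 2) e hem
    rw [show 3 * m - 2 + 1 = 3 * m - 1 by omega] at r1
    unfold Xg
    set R := Rg E m (kA E m) * sz E m with hRdef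
    set κ := kA E m with hκ
    set Y := Yg E m (cA E m) with hYdef
    set N0 := Nn E (3 * m - 3) with hN0
    set c' := cB E m with hc'def
    refine room (by omega) (by omega) ?_
    -- `2 m (R + κ + X) ≤ Nn E e`
    have s2 : (3 * m - 1) * (2 * m * (R + κ + (m * (N0 + Y) + c' + (e + 1) * Y))) ≤
        (3 * m - 1) * Nn E e := by
      refine le_trans ?_ r1
      refine le_trans ?_ (Nat.mul_le_mul_left (e + 1) g2.le)
      have s3 : R + κ + (m * (N0 + Y) + c' + (e + 1) * Y) ≤
          (e + 1) * (R + κ + (m * (N0 + Y) + c' + Y)) := by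
        have s4 : R + κ + (m * (N0 + Y) + c') ≤ (e + 1) * (R + κ + (m * (N0 + Y) + c')) :=
          Nat.le_mul_of_pos_left _ (by omega)
        calc R + κ + (m * (N0 + Y) + c' + (e + 1) * Y)
            = (R + κ + (m * (N0 + Y) + c')) + (e + 1) * Y := by ring
          _ ≤ (e + 1) * (R + κ + (m * (N0 + Y) + c')) + (e + 1) * Y :=
            Nat.add_le_add_right s4 _
          _ = (e + 1) * (R + κ + (m * (N0 + Y) + c' + Y)) := by ring
      calc (3 * m - 1) * (2 * m * (R + κ + (m * (N0 + Y) + c' + (e + 1) * Y)))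
          ≤ (3 * m - 1) * (2 * m * ((e + 1) * (R + κ + (m * (N0 + Y) + c' + Y)))) :=
            Nat.mul_le_mul_left _ (Nat.mul_le_mul_left _ s3)
        _ = (e + 1) * ((3 * m - 1) * (2 * m) * (R + κ + (m * (N0 + Y) + c' + Y))) := by ring
    exact le_of_mul_le_mul_left s2 (by omega)
  · -- the second part of `Cndg`
    have r1 : Nn E (3 * m - 1) ≤ Nn E (e + 1) := Nn_mono (by omega)
    have r2 : (m + E + 1) * (Rg E m (kA E m) * sz E m) ≤ Nn E (e + 1) := by
      rw [show m + E + 1 = m + 1 + E by ring]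
      exact g3.le.trans r1
    obtain ⟨f, hf⟩ : ∃ f, e + 2 = m + (f + 1) := ⟨e + 1 - m, by omega⟩
    rw [hf]
    calc (m + E + 1) * (Rg E m (kA E m) * sz E m) + m * Nn E (e + 1)
        ≤ Nn E (e + 1) + m * Nn E (e + 1) := Nat.add_le_add_right r2 _
      _ ≤ f * Nn E (e + 1) + (Nn E (e + 1) + m * Nn E (e + 1)) := Nat.le_add_left _ _
      _ = (m + (f + 1)) * Nn E (e + 1) := by ring
  · -- the degree of the fixed part
    have r1 := ratio (E + 1) (4 * m - 3) d hd
    rw [← dm_eq, ← dm_eq] at r1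
    rw [show 4 * m - 3 + 1 = 4 * m - 2 by omega] at r1
    unfold Qg
    set R := Rg E m (kA E m) with hRdef
    set D0 := dm E (3 * m - 3) with hD0
    have s1 : (4 * m - 2) * (m * (Sz E m * (D0 + d * R))) < (4 * m - 2) * dm E d := by
      refine lt_of_lt_of_le ?_ r1
      refine lt_of_le_of_lt ?_ (Nat.mul_lt_mul_of_pos_left g4 (by omega : 0 < d + 1))
      have s2 : D0 + d * R ≤ (d + 1) * (D0 + R) := by nlinarith [Nat.zero_le (d * D0)]
      calc (4 * m - 2) * (m * (Sz E m * (D0 + d * R)))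
          ≤ (4 * m - 2) * (m * (Sz E m * ((d + 1) * (D0 + R)))) :=
            Nat.mul_le_mul_left _ (Nat.mul_le_mul_left _ (Nat.mul_le_mul_left _ s2))
        _ = (d + 1) * ((4 * m - 2) * m * (Sz E m * (D0 + R))) := by ring
    exact lt_of_mul_lt_mul_left s1 (by omega)
  · have r1 := ratio E (4 * m - 3) d hd
    rw [show 4 * m - 3 + 1 = 4 * m - 2 by omega] at r1
    unfold Qg Xg
    set R := Rg E m (kA E m) with hRdef
    set κ := kA E m with hκ
    set Y := Yg E m (cA E m) with hYdef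
    set N0 := Nn E (3 * m - 3) with hN0
    set D0 := dm E (3 * m - 3) with hD0
    set c' := cB E m with hc'def
    set s := sz E m with hs
    have s1 : (4 * m - 2) * ((D0 + d * R) * s + κ + (m * (N0 + Y) + c' + d * Y)) ≤
        (4 * m - 2) * Nn E d := by
      refine le_trans ?_ r1
      refine le_trans ?_ (Nat.mul_le_mul_left (d + 1) g5.le)
      have s2 : (D0 + d * R) * s + κ + (m * (N0 + Y) + c' + d * Y) ≤
          (d + 1) * ((D0 + R) * s + κ + (m * (N0 + Y) + c' + Y)) := by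
        have e1 : (d + 1) * ((D0 + R) * s + κ + (m * (N0 + Y) + c' + Y)) =
            ((D0 + d * R) * s + κ + (m * (N0 + Y) + c' + d * Y)) +
            (d * (D0 * s + κ + (m * (N0 + Y) + c')) + R * s + Y) := by ring
        rw [e1]
        exact Nat.le_add_right _ _
      calc (4 * m - 2) * ((D0 + d * R) * s + κ + (m * (N0 + Y) + c' + d * Y))
          ≤ (4 * m - 2) * ((d + 1) * ((D0 + R) * s + κ + (m * (N0 + Y) + c' + Y))) :=
            Nat.mul_le_mul_left _ s2
        _ = (d + 1) * ((4 * m - 2) * ((D0 + R) * s + κ + (m * (N0 + Y) + c' + Y))) := by ring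
    exact le_of_mul_le_mul_left s1 (by omega)

end Pool.Agent.H1.FV
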